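import Pool.Agent.H10.AcC

set_option autoImplicit false

namespace Pool.Agent.Results.MP_c42e77_an.Both

open Cardinal

/-- MP_c42e77_an: Q1 is true, Q2 is false. For every convergent series of positive terms the set
of points with continuum many representations is empty or contains a Cantor set; for some such
series the set of points with exactly countably infinitely many representations is nonempty and
contains no Cantor set. -/
theorem result :
    (∀ x : ℕ → ℝ, (∀ n, 0 < x n) → Summable x →
      (H10Ac.level x 𝔠 = ∅ ∨ H10Ac.ContainsCantorSet (H10Ac.level x 𝔠))) ∧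
    (∃ x : ℕ → ℝ, (∀ n, 0 < x n) ∧ Summable x ∧ (H10Ac.level x ℵ₀).Nonempty ∧
      ¬ H10Ac.ContainsCantorSet (H10Ac.level x ℵ₀)) :=
  ⟨H10Ac.q1, H10Ac.q2⟩

end Pool.Agent.Results.MP_c42e77_an.Both
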