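import Pool.Agent.H10.AcB

set_option autoImplicit false

namespace Pool.Agent.Results.MP_c42e77_an.Perfect

open Cardinal

/-- MP_c42e77_an, Q1 proved: for every convergent series of positive terms the set of points
with continuum many representations is empty or contains a Cantor set. -/
theorem result (x : ℕ → ℝ) (hx : ∀ n, 0 < x n) (hs : Summable x) :
    H10Ac.level x 𝔠 = ∅ ∨ H10Ac.ContainsCantorSet (H10Ac.level x 𝔠) :=
  H10Ac.q1 x hx hs

end Pool.Agent.Results.MP_c42e77_an.Perfect
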